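import Mathlib
import Pool.Agent.Lib.helper24.QTower

namespace Pool.Agent.Results.MP_caf75b_al.NoTower

/-- The three quandle axioms for `op a b = a * b`. -/
def IsQuandle {X : Type} (op : X → X → X) : Prop :=
  (∀ a, op a a = a) ∧ (∀ b c, ∃! a, op a b = c) ∧
    ∀ a b c, op (op a b) c = op (op a c) (op b c)

/-- The group generated by the right translations `x ↦ x * a` acts transitively on the
nonempty set `X`. -/
def IsConnectedQuandle {X : Type} (op : X → X → X) : Prop :=
  Nonempty X ∧ ∀ x y : X,
    ∃ g ∈ Subgroup.closure {σ : Equiv.Perm X | ∃ a, ∀ x, σ x = op x a}, g x = y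

/-- Quandle 2-cocycles with values in an additive abelian group. -/
def IsCocycle {X A : Type} [AddCommGroup A] (op : X → X → X) (φ : X → X → A) : Prop :=
  (∀ x y z, φ x y - φ x z + φ (op x y) z - φ (op x z) (op y z) = 0) ∧ ∀ x, φ x x = 0

/-- The operation of the abelian extension `E(X, A, φ)` on `X × A`. -/
def extOp {X A : Type} [AddCommGroup A] (op : X → X → X) (φ : X → X → A) (u v : X × A) : X × A :=
  (op u.1 v.1, u.2 + φ u.1 v.1)

theorem result : ¬ ∃ (Q : ℕ → Type) (op : ∀ n, Q n → Q n → Q n),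
    (∀ n, Finite (Q n)) ∧ (∀ n, IsQuandle (op n)) ∧ (∀ n, IsConnectedQuandle (op n)) ∧
    ∀ n, ∃ (A : Type) (_ : AddCommGroup A) (φ : Q n → Q n → A), Nontrivial A ∧
      IsCocycle (op n) φ ∧ ∃ e : Q (n + 1) ≃ Q n × A,
        ∀ u v, e (op (n + 1) u v) = extOp (op n) φ (e u) (e v) := by
  rintro ⟨Q, op, hf, hq, hc, he⟩
  choose A iA φ hA _ e he using he
  obtain ⟨x0⟩ := (hc 0).1
  obtain ⟨B, hB⟩ := Pool.Agent.Lib.helper24.QTower.tower Q x0 op (fun n => (hq n).1)
    (fun n b => (Function.bijective_iff_existsUnique _).2 ((hq n).2.1 b))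
    (fun n => (hq n).2.2) (fun n => (hc n).2) (fun n u => (e n u).1)
    (fun n y => ⟨(e n).symm (y, 0), by simp⟩)
    (fun n x y => by rw [he]; rfl)
    (fun n y y' h x => by
      apply (e n).injective
      rw [he, he]
      simp only [extOp]
      rw [h])
  have hlt : ∀ n, n < Nat.card (Q n) := by
    intro n
    induction n with
    | zero => haveI := (hc 0).1; exact Nat.card_pos
    | succ n ih =>
      haveI := (hc n).1
      haveI := hA n
      haveI : Finite (Q n × A n) := Finite.of_equiv _ (e n)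
      haveI : Finite (A n) := Finite.prod_right (Q n)
      have h1 : 1 < Nat.card (A n) := Finite.one_lt_card
      rw [Nat.card_congr (e n), Nat.card_prod]
      nlinarith
  exact absurd (hB B) (not_le.2 (hlt B))

end Pool.Agent.Results.MP_caf75b_al.NoTower
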